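import Mathlib

set_option autoImplicit false

/-!
# MP_06b5a3_co: point-plane incidences in `ℝ³` without `K_{3,t}`

For `t ≥ 3` we construct `m` points and `n` planes without `K_{3,t}` in the incidence graph and with
`≫ max(m,n)^{4/5} min(m,n)^{3/5} + m + n` incidences.
-/

namespace Pool.Agent.Results.MP_06b5a3_co.Unbalanced

/-- `h` is a plane of `ℝ³`. -/
def IsPlane (h : Set (ℝ × ℝ × ℝ)) : Prop :=
  ∃ a b c d : ℝ, ¬ (a = 0 ∧ b = 0 ∧ c = 0) ∧
    h = {p : ℝ × ℝ × ℝ | a * p.1 + b * p.2.1 + c * p.2.2 = d}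

/-- The number of incidences between the points of `P` and the planes of `H`. -/
noncomputable def incidences (P : Finset (ℝ × ℝ × ℝ)) (H : Finset (Set (ℝ × ℝ × ℝ))) : ℕ :=
  {x : (ℝ × ℝ × ℝ) × Set (ℝ × ℝ × ℝ) | x.1 ∈ P ∧ x.2 ∈ H ∧ x.1 ∈ x.2}.ncard

/-- The incidence graph contains no `K_{3,t}`: there are no three points of `P` and `t` planes of
`H` such that all of these points lie on all of these planes. -/
def NoK (t : ℕ) (P : Finset (ℝ × ℝ × ℝ)) (H : Finset (Set (ℝ × ℝ × ℝ))) : Prop :=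
  ∀ S ⊆ P, ∀ T ⊆ H, S.card = 3 → T.card = t → ∃ p ∈ S, ∃ h ∈ T, p ∉ h

/-- `I_t(m,n)`: the maximal number of incidences of `m` points and `n` planes without `K_{3,t}`. -/
noncomputable def I (t m n : ℕ) : ℕ :=
  sSup {k | ∃ (P : Finset (ℝ × ℝ × ℝ)) (H : Finset (Set (ℝ × ℝ × ℝ))),
    P.card = m ∧ H.card = n ∧ (∀ h ∈ H, IsPlane h) ∧ NoK t P H ∧ incidences P H = k}

theorem incidences_le (P : Finset (ℝ × ℝ × ℝ)) (H : Finset (Set (ℝ × ℝ × ℝ))) :
    incidences P H ≤ P.card * H.card := by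
  classical
  unfold incidences
  rw [← Finset.card_product, ← Set.ncard_coe_finset]
  apply Set.ncard_le_ncard _ (Finset.finite_toSet _)
  rintro x ⟨h1, h2, _⟩
  rw [Finset.mem_coe, Finset.mem_product]
  exact ⟨h1, h2⟩

theorem le_I (t m n : ℕ) (P : Finset (ℝ × ℝ × ℝ)) (H : Finset (Set (ℝ × ℝ × ℝ)))
    (h1 : P.card = m) (h2 : H.card = n) (h3 : ∀ h ∈ H, IsPlane h) (h4 : NoK t P H) :
    incidences P H ≤ I t m n := by
  apply le_csSup
  · refine ⟨m * n, ?_⟩
    rintro k ⟨P, H, rfl, rfl, _, _, rfl⟩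
    exact incidences_le P H
  · exact ⟨P, H, h1, h2, h3, h4, rfl⟩

/-- abstract incidence relation -/
def R (u v : ℕ × ℕ × ℕ) : Prop := u.1 + u.2.1 * v.1 + u.2.2 * v.2.1 = v.2.2

instance (u v : ℕ × ℕ × ℕ) : Decidable (R u v) := by unfold R; infer_instance

/-- no two elements of `U` are both related to three elements of `V` -/
def Free (U V : Finset (ℕ × ℕ × ℕ)) : Prop :=
  ∀ u ∈ U, ∀ u' ∈ U, ∀ v ∈ V, ∀ v' ∈ V, ∀ v'' ∈ V, u ≠ u' → v ≠ v' → v ≠ v'' → v' ≠ v'' →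
    ¬ (R u v ∧ R u' v ∧ R u v' ∧ R u' v' ∧ R u v'' ∧ R u' v'')

/-- main combinatorial configuration -/
lemma core (M q m n : ℕ) (hq : q.Prime)
    (hm : M * q * (M + 1) ^ 2 ≤ m) (hn : q * (3 * (M * q)) ≤ n) :
    ∃ U V : Finset (ℕ × ℕ × ℕ), U.card = m ∧ V.card = n ∧ Free U V ∧
      M * q * (M + 1) ^ 2 * q ≤ ((U ×ˢ V).filter (fun p => R p.1 p.2)).card := by
  classical
  have : Fact q.Prime := ⟨hq⟩
  have hq0 : 0 < q := hq.pos
  set N : Finset (ℕ × ℕ) := (Finset.range q).image (fun y => (y, y ^ 2 % q)) with hN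
  have hNc : N.card = q := by
    rw [hN, Finset.card_image_of_injective, Finset.card_range]
    intro i j h; simp only [Prod.mk.injEq] at h; exact h.1
  have hNlt : ∀ p ∈ N, p.1 < q ∧ p.2 < q := by
    intro p hp
    rw [hN, Finset.mem_image] at hp
    obtain ⟨y, hy, rfl⟩ := hp
    exact ⟨Finset.mem_range.mp hy, Nat.mod_lt _ hq0⟩
  have hNsq : ∀ p ∈ N, (p.2 : ZMod q) = (p.1 : ZMod q) ^ 2 := by
    intro p hp
    rw [hN, Finset.mem_image] at hp
    obtain ⟨y, hy, rfl⟩ := hp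
    simp
  have hNeq : ∀ p ∈ N, ∀ p' ∈ N, (p.1 : ZMod q) = p'.1 → p = p' := by
    intro p hp p' hp' h
    have h1 := (hNlt p hp).1
    have h2 := (hNlt p' hp').1
    have h3 : p.1 = p'.1 := by
      rw [ZMod.natCast_eq_natCast_iff'] at h
      rwa [Nat.mod_eq_of_lt h1, Nat.mod_eq_of_lt h2] at h
    rw [hN, Finset.mem_image] at hp hp'
    obtain ⟨y, hy, rfl⟩ := hp
    obtain ⟨y', hy', rfl⟩ := hp'
    simp only at h3
    rw [h3]
  set K := 3 * (M * q) with hK
  set U₀ : Finset (ℕ × ℕ × ℕ) :=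
    Finset.range (M * q) ×ˢ (Finset.range (M + 1) ×ˢ Finset.range (M + 1)) with hU₀
  set V₀ : Finset (ℕ × ℕ × ℕ) :=
    (N ×ˢ Finset.range K).image (fun p => (p.1.1, p.1.2, p.2)) with hV₀
  set U₁ : Finset (ℕ × ℕ × ℕ) :=
    (Finset.range (m - M * q * (M + 1) ^ 2)).image (fun i => (K + i, 0, 0)) with hU₁
  set V₁ : Finset (ℕ × ℕ × ℕ) :=
    (Finset.range (n - q * K)).image (fun i => (0, 0, K + m + i)) with hV₁
  have cU₀ : U₀.card = M * q * (M + 1) ^ 2 := by
    rw [hU₀, Finset.card_product, Finset.card_product, Finset.card_range, Finset.card_range]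
    ring
  have cV₀ : V₀.card = q * K := by
    rw [hV₀, Finset.card_image_of_injective, Finset.card_product, Finset.card_range, hNc]
    rintro ⟨⟨a, b⟩, c⟩ ⟨⟨a', b'⟩, c'⟩ h
    simp only [Prod.mk.injEq] at h ⊢
    tauto
  have cU₁ : U₁.card = m - M * q * (M + 1) ^ 2 := by
    rw [hU₁, Finset.card_image_of_injective, Finset.card_range]
    intro i j h
    simp only [Prod.mk.injEq] at h
    omega
  have cV₁ : V₁.card = n - q * K := by
    rw [hV₁, Finset.card_image_of_injective, Finset.card_range]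
    intro i j h
    simp only [Prod.mk.injEq] at h
    omega
  have memU₀ : ∀ u ∈ U₀, u.1 < M * q ∧ u.2.1 ≤ M ∧ u.2.2 ≤ M := by
    intro u hu
    rw [hU₀, Finset.mem_product, Finset.mem_product, Finset.mem_range, Finset.mem_range,
      Finset.mem_range] at hu
    omega
  have memV₀ : ∀ v ∈ V₀, (v.1, v.2.1) ∈ N ∧ v.2.2 < K := by
    intro v hv
    rw [hV₀, Finset.mem_image] at hv
    obtain ⟨p, hp, rfl⟩ := hv
    rw [Finset.mem_product, Finset.mem_range] at hp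
    exact ⟨hp.1, hp.2⟩
  have memU₁ : ∀ u ∈ U₁, K ≤ u.1 ∧ u.1 < K + m ∧ u.2.1 = 0 ∧ u.2.2 = 0 := by
    intro u hu
    rw [hU₁, Finset.mem_image] at hu
    obtain ⟨i, hi, rfl⟩ := hu
    rw [Finset.mem_range] at hi
    refine ⟨by simp, ?_, rfl, rfl⟩
    simp only
    omega
  have memV₁ : ∀ v ∈ V₁, v.1 = 0 ∧ v.2.1 = 0 ∧ K + m ≤ v.2.2 := by
    intro v hv
    rw [hV₁, Finset.mem_image] at hv
    obtain ⟨i, hi, rfl⟩ := hv
    exact ⟨rfl, rfl, by simp⟩
  have hval : ∀ u ∈ U₀, ∀ x y : ℕ, x < q → y < q → u.1 + u.2.1 * x + u.2.2 * y < K := by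
    intro u hu x y hx hy
    obtain ⟨a1, a2, a3⟩ := memU₀ u hu
    have b1 : u.2.1 * x ≤ M * q := Nat.mul_le_mul a2 hx.le
    have b2 : u.2.2 * y ≤ M * q := Nat.mul_le_mul a3 hy.le
    omega
  have noR₁ : ∀ u ∈ U₁, ∀ v ∈ V₀ ∪ V₁, ¬ R u v := by
    intro u hu v hv hR
    obtain ⟨a1, a2, a3, a4⟩ := memU₁ u hu
    unfold R at hR
    rw [a3, a4] at hR
    rcases Finset.mem_union.mp hv with hv | hv
    · obtain ⟨_, b⟩ := memV₀ v hv
      omega
    · obtain ⟨_, _, b⟩ := memV₁ v hv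
      omega
  have noR₂ : ∀ u ∈ U₀ ∪ U₁, ∀ v ∈ V₁, ¬ R u v := by
    intro u hu v hv hR
    obtain ⟨b1, b2, b3⟩ := memV₁ v hv
    unfold R at hR
    rw [b1, b2] at hR
    rcases Finset.mem_union.mp hu with hu | hu
    · obtain ⟨a, _, _⟩ := memU₀ u hu
      omega
    · obtain ⟨_, a, _, _⟩ := memU₁ u hu
      omega
  have dU : Disjoint U₀ U₁ := by
    rw [Finset.disjoint_left]
    intro u h0 h1
    have := (memU₀ u h0).1
    have := (memU₁ u h1).1
    omega
  have dV : Disjoint V₀ V₁ := by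
    rw [Finset.disjoint_left]
    intro v h0 h1
    have := (memV₀ v h0).2
    have := (memV₁ v h1).2.2
    omega
  refine ⟨U₀ ∪ U₁, V₀ ∪ V₁, ?_, ?_, ?_, ?_⟩
  · rw [Finset.card_union_of_disjoint dU, cU₀, cU₁]; omega
  · rw [Finset.card_union_of_disjoint dV, cV₀, cV₁]; omega
  · intro u hu u' hu' v hv v' hv' v'' hv'' huu h12 h13 h23 ⟨r1, r2, r3, r4, r5, r6⟩
    have hu0 : u ∈ U₀ := by
      rcases Finset.mem_union.mp hu with h | h
      · exact h
      · exact absurd r1 (noR₁ u h v hv)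
    have hu0' : u' ∈ U₀ := by
      rcases Finset.mem_union.mp hu' with h | h
      · exact h
      · exact absurd r2 (noR₁ u' h v hv)
    have key : ∀ w ∈ V₀ ∪ V₁, R u w → (w.1, w.2.1) ∈ N := by
      intro w hw hr
      rcases Finset.mem_union.mp hw with h | h
      · exact (memV₀ w h).1
      · exact absurd hr (noR₂ u hu w h)
    have c1 := key v hv r1
    have c2 := key v' hv' r3
    have c3 := key v'' hv'' r5
    have ext : ∀ w w' : ℕ × ℕ × ℕ, R u w → R u w' → (w.1, w.2.1) = (w'.1, w'.2.1) → w = w' := by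
      intro w w' hw hw' h
      simp only [Prod.mk.injEq] at h
      unfold R at hw hw'
      rw [h.1, h.2] at hw
      exact Prod.ext h.1 (Prod.ext h.2 (by rw [← hw, ← hw']))
    have s1 : (u.1 : ℤ) + u.2.1 * v.1 + u.2.2 * v.2.1 = v.2.2 := by exact_mod_cast r1
    have s2 : (u'.1 : ℤ) + u'.2.1 * v.1 + u'.2.2 * v.2.1 = v.2.2 := by exact_mod_cast r2
    have s3 : (u.1 : ℤ) + u.2.1 * v'.1 + u.2.2 * v'.2.1 = v'.2.2 := by exact_mod_cast r3
    have s4 : (u'.1 : ℤ) + u'.2.1 * v'.1 + u'.2.2 * v'.2.1 = v'.2.2 := by exact_mod_cast r4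
    have s5 : (u.1 : ℤ) + u.2.1 * v''.1 + u.2.2 * v''.2.1 = v''.2.2 := by exact_mod_cast r5
    have s6 : (u'.1 : ℤ) + u'.2.1 * v''.1 + u'.2.2 * v''.2.1 = v''.2.2 := by exact_mod_cast r6
    set b : ℤ := (u.2.1 : ℤ) - u'.2.1 with hb
    set c : ℤ := (u.2.2 : ℤ) - u'.2.2 with hc
    have t1 : b * ((v.1 : ℤ) - v''.1) + c * ((v.2.1 : ℤ) - v''.2.1) = 0 := by
      rw [hb, hc]; linear_combination s1 - s2 - s5 + s6
    have t2 : b * ((v'.1 : ℤ) - v''.1) + c * ((v'.2.1 : ℤ) - v''.2.1) = 0 := by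
      rw [hb, hc]; linear_combination s3 - s4 - s5 + s6
    have hbc : ¬ (b = 0 ∧ c = 0) := by
      rintro ⟨h, h'⟩
      apply huu
      have e1 : u.2.1 = u'.2.1 := by omega
      have e2 : u.2.2 = u'.2.2 := by omega
      unfold R at r1 r2
      rw [e1, e2] at r1
      exact Prod.ext (by omega) (Prod.ext e1 e2)
    have hdet : ((v.1 : ℤ) - v''.1) * ((v'.2.1 : ℤ) - v''.2.1) -
        ((v'.1 : ℤ) - v''.1) * ((v.2.1 : ℤ) - v''.2.1) = 0 := by
      by_contra hne
      apply hbc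
      constructor
      · have : b * (((v.1 : ℤ) - v''.1) * ((v'.2.1 : ℤ) - v''.2.1) -
            ((v'.1 : ℤ) - v''.1) * ((v.2.1 : ℤ) - v''.2.1)) = 0 := by
          linear_combination ((v'.2.1 : ℤ) - v''.2.1) * t1 - ((v.2.1 : ℤ) - v''.2.1) * t2
        exact (mul_eq_zero.mp this).resolve_right hne
      · have : c * (((v.1 : ℤ) - v''.1) * ((v'.2.1 : ℤ) - v''.2.1) -
            ((v'.1 : ℤ) - v''.1) * ((v.2.1 : ℤ) - v''.2.1)) = 0 := by
          linear_combination ((v.1 : ℤ) - v''.1) * t2 - ((v'.1 : ℤ) - v''.1) * t1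
        exact (mul_eq_zero.mp this).resolve_right hne
    have hdq : ((v.1 : ZMod q) - v''.1) * ((v'.2.1 : ZMod q) - v''.2.1) -
        ((v'.1 : ZMod q) - v''.1) * ((v.2.1 : ZMod q) - v''.2.1) = 0 := by
      have := congrArg (Int.cast : ℤ → ZMod q) hdet
      push_cast at this
      exact this
    have q1 := hNsq _ c1
    have q2 := hNsq _ c2
    have q3 := hNsq _ c3
    simp only at q1 q2 q3
    rw [q1, q2, q3] at hdq
    have hfac : ((v.1 : ZMod q) - v''.1) * ((v'.1 : ZMod q) - v''.1) *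
        ((v'.1 : ZMod q) - v.1) = 0 := by linear_combination hdq
    rcases mul_eq_zero.mp hfac with h | h
    · rcases mul_eq_zero.mp h with h | h
      · exact h13 (ext _ _ r1 r5 (hNeq _ c1 _ c3 (by simpa using sub_eq_zero.mp h)))
      · exact h23 (ext _ _ r3 r5 (hNeq _ c2 _ c3 (by simpa using sub_eq_zero.mp h)))
    · exact h12 (ext _ _ r3 r1 (hNeq _ c2 _ c1 (by simpa using sub_eq_zero.mp h))).symm
  · have hinj : Set.InjOn (fun p : (ℕ × ℕ × ℕ) × (ℕ × ℕ) =>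
        ((p.1, (p.2.1, p.2.2, p.1.1 + p.1.2.1 * p.2.1 + p.1.2.2 * p.2.2)) :
          (ℕ × ℕ × ℕ) × (ℕ × ℕ × ℕ))) ((U₀ ×ˢ N : Finset _) : Set _) := by
      rintro ⟨u, x, y⟩ _ ⟨u', x', y'⟩ _ h
      simp only [Prod.mk.injEq] at h ⊢
      tauto
    calc M * q * (M + 1) ^ 2 * q = (U₀ ×ˢ N).card := by
          rw [Finset.card_product, cU₀, hNc]
      _ = ((U₀ ×ˢ N).image (fun p : (ℕ × ℕ × ℕ) × (ℕ × ℕ) =>
        ((p.1, (p.2.1, p.2.2, p.1.1 + p.1.2.1 * p.2.1 + p.1.2.2 * p.2.2)) :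
          (ℕ × ℕ × ℕ) × (ℕ × ℕ × ℕ)))).card := (Finset.card_image_of_injOn hinj).symm
      _ ≤ _ := by
          apply Finset.card_le_card
          intro z hz
          rw [Finset.mem_image] at hz
          obtain ⟨⟨u, x, y⟩, hp, rfl⟩ := hz
          rw [Finset.mem_product] at hp
          rw [Finset.mem_filter, Finset.mem_product]
          refine ⟨⟨Finset.mem_union_left _ hp.1, Finset.mem_union_left _ ?_⟩, rfl⟩
          rw [hV₀, Finset.mem_image]
          refine ⟨((x, y), _), ?_, rfl⟩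
          rw [Finset.mem_product, Finset.mem_range]
          have := hNlt _ hp.2
          exact ⟨hp.2, hval u hp.1 x y this.1 this.2⟩

/-- the trivial configuration -/
lemma triv (m n : ℕ) (hm : 1 ≤ m) (hn : 1 ≤ n) :
    ∃ U V : Finset (ℕ × ℕ × ℕ), U.card = m ∧ V.card = n ∧ Free U V ∧
      m + n - 1 ≤ ((U ×ˢ V).filter (fun p => R p.1 p.2)).card := by
  classical
  set U : Finset (ℕ × ℕ × ℕ) := (Finset.range m).image (fun i => (0, i, 0)) with hU
  set V : Finset (ℕ × ℕ × ℕ) := (Finset.range n).image (fun j => (j, 0, 0)) with hV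
  have memU : ∀ u ∈ U, u.1 = 0 ∧ u.2.2 = 0 := by
    intro u hu
    rw [hU, Finset.mem_image] at hu
    obtain ⟨i, _, rfl⟩ := hu
    exact ⟨rfl, rfl⟩
  have memV : ∀ v ∈ V, v.2.1 = 0 ∧ v.2.2 = 0 := by
    intro v hv
    rw [hV, Finset.mem_image] at hv
    obtain ⟨i, _, rfl⟩ := hv
    exact ⟨rfl, rfl⟩
  refine ⟨U, V, ?_, ?_, ?_, ?_⟩
  · rw [hU, Finset.card_image_of_injective, Finset.card_range]
    intro i j h; simp only [Prod.mk.injEq] at h; tauto
  · rw [hV, Finset.card_image_of_injective, Finset.card_range]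
    intro i j h; simp only [Prod.mk.injEq] at h; tauto
  · intro u hu u' hu' v hv v' hv' v'' hv'' huu hvv _ _ ⟨r1, r2, r3, r4, _, _⟩
    obtain ⟨a1, a2⟩ := memU u hu
    obtain ⟨b1, b2⟩ := memU u' hu'
    obtain ⟨c1, c2⟩ := memV v hv
    obtain ⟨d1, d2⟩ := memV v' hv'
    unfold R at r1 r2 r3 r4
    rw [a1, c1, c2, zero_add, mul_zero, add_zero] at r1
    rw [b1, c1, c2, zero_add, mul_zero, add_zero] at r2
    rw [a1, d1, d2, zero_add, mul_zero, add_zero] at r3
    rw [b1, d1, d2, zero_add, mul_zero, add_zero] at r4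
    by_cases hv1 : v.1 = 0
    · have hv2 : v'.1 ≠ 0 := by
        intro h
        exact hvv (Prod.ext (by rw [hv1, h]) (Prod.ext (by rw [c1, d1]) (by rw [c2, d2])))
      have k1 : u.2.1 = 0 := (mul_eq_zero.mp r3).resolve_right hv2
      have k2 : u'.2.1 = 0 := (mul_eq_zero.mp r4).resolve_right hv2
      exact huu (Prod.ext (by rw [a1, b1]) (Prod.ext (by rw [k1, k2]) (by rw [a2, b2])))
    · have k1 : u.2.1 = 0 := (mul_eq_zero.mp r1).resolve_right hv1
      have k2 : u'.2.1 = 0 := (mul_eq_zero.mp r2).resolve_right hv1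
      exact huu (Prod.ext (by rw [a1, b1]) (Prod.ext (by rw [k1, k2]) (by rw [a2, b2])))
  · have hsub : ((Finset.range m).image (fun i => (((0, i, 0), (0, 0, 0)) :
        (ℕ × ℕ × ℕ) × (ℕ × ℕ × ℕ)))) ∪ ((Finset.range (n - 1)).image
          (fun j => (((0, 0, 0), (j + 1, 0, 0)) : (ℕ × ℕ × ℕ) × (ℕ × ℕ × ℕ)))) ⊆
        (U ×ˢ V).filter (fun p => R p.1 p.2) := by
      intro z hz
      rw [Finset.mem_filter, Finset.mem_product]
      rcases Finset.mem_union.mp hz with h | h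
      · rw [Finset.mem_image] at h
        obtain ⟨i, hi, rfl⟩ := h
        refine ⟨⟨Finset.mem_image_of_mem _ hi, ?_⟩, by simp [R]⟩
        rw [hV, Finset.mem_image]
        exact ⟨0, Finset.mem_range.mpr (by omega), rfl⟩
      · rw [Finset.mem_image] at h
        obtain ⟨j, hj, rfl⟩ := h
        rw [Finset.mem_range] at hj
        refine ⟨⟨?_, ?_⟩, by simp [R]⟩
        · rw [hU, Finset.mem_image]
          exact ⟨0, Finset.mem_range.mpr (by omega), rfl⟩
        · rw [hV, Finset.mem_image]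
          exact ⟨j + 1, Finset.mem_range.mpr (by omega), rfl⟩
    refine le_trans ?_ (Finset.card_le_card hsub)
    rw [Finset.card_union_of_disjoint, Finset.card_image_of_injective,
      Finset.card_image_of_injective, Finset.card_range, Finset.card_range]
    · omega
    · intro i j h; simp only [Prod.mk.injEq] at h; omega
    · intro i j h; simp only [Prod.mk.injEq] at h; omega
    · rw [Finset.disjoint_left]
      intro z h1 h2
      rw [Finset.mem_image] at h1 h2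
      obtain ⟨i, _, rfl⟩ := h1
      obtain ⟨j, _, h⟩ := h2
      simp only [Prod.mk.injEq] at h
      omega

/-- real parameters -/
lemma params (m n : ℕ) (hn : 1 ≤ n) (hmn : n ≤ m) : ∃ a g : ℝ, 0 < a ∧ 0 < g ∧
    a ^ 3 * g = m ∧ a * g ^ 2 = n ∧ g ≤ a ^ 2 ∧
    a ^ 3 * g ^ 2 = (m : ℝ) ^ ((4 : ℝ) / 5) * (n : ℝ) ^ ((3 : ℝ) / 5) := by
  have hn' : (0 : ℝ) < n := by exact_mod_cast hn
  have hm' : (0 : ℝ) < m := by exact_mod_cast (lt_of_lt_of_le hn hmn)
  have hnm : (n : ℝ) ≤ m := by exact_mod_cast hmn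
  set p : ℝ := (m : ℝ) ^ ((1 : ℝ) / 5) with hp
  set r : ℝ := (n : ℝ) ^ ((1 : ℝ) / 5) with hr
  have p0 : 0 < p := Real.rpow_pos_of_pos hm' _
  have r0 : 0 < r := Real.rpow_pos_of_pos hn' _
  have p5 : p ^ 5 = m := by
    rw [hp, ← Real.rpow_natCast, ← Real.rpow_mul hm'.le]; norm_num
  have r5 : r ^ 5 = n := by
    rw [hr, ← Real.rpow_natCast, ← Real.rpow_mul hn'.le]; norm_num
  have p4 : (m : ℝ) ^ ((4 : ℝ) / 5) = p ^ 4 := by
    rw [hp, ← Real.rpow_natCast, ← Real.rpow_mul hm'.le]; norm_num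
  have r3 : (n : ℝ) ^ ((3 : ℝ) / 5) = r ^ 3 := by
    rw [hr, ← Real.rpow_natCast, ← Real.rpow_mul hn'.le]; norm_num
  have hrp : r ≤ p := Real.rpow_le_rpow hn'.le hnm (by norm_num)
  refine ⟨p ^ 2 / r, r ^ 3 / p, by positivity, by positivity, ?_, ?_, ?_, ?_⟩
  · rw [← p5]; field_simp
  · rw [← r5]; field_simp
  · rw [div_pow, div_le_div_iff₀ (by positivity) (by positivity)]
    have : r ^ 5 ≤ p ^ 5 := pow_le_pow_left₀ r0.le hrp 5
    calc r ^ 3 * r ^ 2 = r ^ 5 := by ring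
      _ ≤ p ^ 5 := this
      _ = (p ^ 2) ^ 2 * p := by ring
  · rw [p4, r3]; field_simp

lemma big (m n : ℕ) (hn : 1 ≤ n) (hmn : n ≤ m) :
    ∃ U V : Finset (ℕ × ℕ × ℕ), U.card = m ∧ V.card = n ∧ Free U V ∧
      (1 / 1000 : ℝ) * ((m : ℝ) ^ ((4 : ℝ) / 5) * (n : ℝ) ^ ((3 : ℝ) / 5) + m + n) ≤
        (((U ×ˢ V).filter (fun p => R p.1 p.2)).card : ℝ) := by
  obtain ⟨a, g, ha, hg, hm, hgn, hga, hag⟩ := params m n hn hmn
  rw [← hag]
  have hn' : (1 : ℝ) ≤ n := by exact_mod_cast hn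
  have hm' : (1 : ℝ) ≤ m := by exact_mod_cast (le_trans hn hmn)
  have hnm : (n : ℝ) ≤ m := by exact_mod_cast hmn
  have hmg : a ^ 3 * g ^ 2 = m * g := by rw [← hm]; ring
  rw [hmg]
  have trivcase : g ≤ 4 → ∃ U V : Finset (ℕ × ℕ × ℕ), U.card = m ∧ V.card = n ∧
      Free U V ∧ (1 / 1000 : ℝ) * (m * g + m + n) ≤
        (((U ×ˢ V).filter (fun p => R p.1 p.2)).card : ℝ) := by
    intro h
    obtain ⟨U, V, h1, h2, h3, h4⟩ := triv m n (le_trans hn hmn) hn
    refine ⟨U, V, h1, h2, h3, ?_⟩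
    have h5 : m ≤ ((U ×ˢ V).filter (fun p => R p.1 p.2)).card := by omega
    have h6 : (m : ℝ) ≤ (((U ×ˢ V).filter (fun p => R p.1 p.2)).card : ℝ) := by exact_mod_cast h5
    nlinarith
  by_cases hg2 : g ≤ 4
  · exact trivcase hg2
  push Not at hg2
  have ha2 : 2 < a := by
    by_contra hc
    push Not at hc
    nlinarith
  -- main parameters
  obtain ⟨M, hM⟩ : ∃ M : ℕ, M = ⌊a / 2⌋₊ := ⟨_, rfl⟩
  obtain ⟨Q, hQ⟩ : ∃ Q : ℕ, Q = ⌊g / 4⌋₊ := ⟨_, rfl⟩
  have M1 : 1 ≤ M := by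
    rw [hM]; exact Nat.le_floor (by push_cast; linarith)
  have Q1 : 1 ≤ Q := by
    rw [hQ]; exact Nat.le_floor (by push_cast; linarith)
  have M1' : (1 : ℝ) ≤ M := by exact_mod_cast M1
  have Mle : (M : ℝ) ≤ a / 2 := by rw [hM]; exact Nat.floor_le (by positivity)
  have Qle : (Q : ℝ) ≤ g / 4 := by rw [hQ]; exact Nat.floor_le (by positivity)
  have Mlt : a / 2 < M + 1 := by rw [hM]; exact Nat.lt_floor_add_one _
  have Qlt : g / 4 < Q + 1 := by rw [hQ]; exact Nat.lt_floor_add_one _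
  have Mge : a / 4 ≤ M := by linarith
  obtain ⟨q, hq, hq1, hq2⟩ := Nat.exists_prime_lt_and_le_two_mul Q (by omega)
  have hq2' : (q : ℝ) ≤ g / 2 := by
    have : (q : ℝ) ≤ 2 * Q := by exact_mod_cast hq2
    linarith
  have hq1' : g / 4 ≤ q := by
    have : (Q : ℝ) + 1 ≤ q := by exact_mod_cast hq1
    linarith
  have qpos : (0 : ℝ) < q := by exact_mod_cast hq.pos
  have cm : M * q * (M + 1) ^ 2 ≤ m := by
    have h1 : (M : ℝ) + 1 ≤ a := by linarith
    have h2 : (M : ℝ) * q * (M + 1) ^ 2 ≤ (a / 2) * (g / 2) * a ^ 2 := by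
      apply mul_le_mul (mul_le_mul Mle hq2' (by positivity) (by positivity))
        (pow_le_pow_left₀ (by positivity) h1 2) (by positivity) (by positivity)
    have h3 : (a / 2) * (g / 2) * a ^ 2 = m / 4 := by rw [← hm]; ring
    have h4 : (M : ℝ) * q * (M + 1) ^ 2 ≤ m := by linarith
    exact_mod_cast h4
  have cn : q * (3 * (M * q)) ≤ n := by
    have h1 : (q : ℝ) * (3 * (M * q)) ≤ (g / 2) * (3 * ((a / 2) * (g / 2))) := by
      apply mul_le_mul hq2' _ (by positivity) (by positivity)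
      apply mul_le_mul_of_nonneg_left _ (by norm_num)
      exact mul_le_mul Mle hq2' (by positivity) (by positivity)
    have h2 : (g / 2) * (3 * ((a / 2) * (g / 2))) = 3 / 8 * n := by rw [← hgn]; ring
    have h3 : (q : ℝ) * (3 * (M * q)) ≤ n := by linarith
    exact_mod_cast h3
  obtain ⟨U, V, h1, h2, h3, h4⟩ := core M q m n hq cm cn
  refine ⟨U, V, h1, h2, h3, ?_⟩
  have h4' : (M : ℝ) * q * (M + 1) ^ 2 * q ≤
      (((U ×ˢ V).filter (fun p => R p.1 p.2)).card : ℝ) := by exact_mod_cast h4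
  -- lower bound
  have k1 : (a / 4) * (g / 4) * (a / 2) ^ 2 * (g / 4) ≤ (M : ℝ) * q * (M + 1) ^ 2 * q := by
    apply mul_le_mul _ hq1' (by positivity) (by positivity)
    apply mul_le_mul _ (pow_le_pow_left₀ (by positivity) Mlt.le 2) (by positivity) (by positivity)
    exact mul_le_mul Mge hq1' (by positivity) (by positivity)
  have k2 : (a / 4) * (g / 4) * (a / 2) ^ 2 * (g / 4) = (1 / 256) * (m * g) := by
    rw [← hmg]; ring
  have k3 : (m : ℝ) * 4 ≤ m * g := mul_le_mul_of_nonneg_left hg2.le (by positivity)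
  linarith

/-- from the abstract configuration to points and planes -/
theorem transfer (t : ℕ) (U V : Finset (ℕ × ℕ × ℕ)) (S : (ℕ × ℕ × ℕ) → (ℕ × ℕ × ℕ) → Prop)
    [∀ u v, Decidable (S u v)]
    (pt : ℕ × ℕ × ℕ → ℝ × ℝ × ℝ) (pl : ℕ × ℕ × ℕ → Set (ℝ × ℝ × ℝ))
    (hpt : Function.Injective pt) (hpl : Function.Injective pl)
    (hS : ∀ u v, S u v ↔ pt u ∈ pl v) (hplane : ∀ v, IsPlane (pl v))
    (hfree : ∀ A ⊆ U, ∀ B ⊆ V, A.card = 3 → B.card = t → ∃ u ∈ A, ∃ v ∈ B, ¬ S u v) :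
    ((U ×ˢ V).filter (fun p => S p.1 p.2)).card ≤ I t U.card V.card := by
  classical
  refine le_trans ?_ (le_I t U.card V.card (U.image pt) (V.image pl)
    (Finset.card_image_of_injective _ hpt) (Finset.card_image_of_injective _ hpl) ?_ ?_)
  · unfold incidences
    rw [← Finset.card_image_of_injective _ (Function.Injective.prodMap hpt hpl),
      ← Set.ncard_coe_finset]
    apply Set.ncard_le_ncard
    · intro z hz
      rw [Finset.mem_coe, Finset.mem_image] at hz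
      obtain ⟨x, hx, rfl⟩ := hz
      rw [Finset.mem_filter, Finset.mem_product] at hx
      exact ⟨Finset.mem_image_of_mem _ hx.1.1, Finset.mem_image_of_mem _ hx.1.2,
        (hS _ _).mp hx.2⟩
    · apply Set.Finite.subset ((U.image pt ×ˢ V.image pl).finite_toSet)
      rintro x ⟨h1, h2, _⟩
      rw [Finset.mem_coe, Finset.mem_product]
      exact ⟨h1, h2⟩
  · intro h hh
    rw [Finset.mem_image] at hh
    obtain ⟨v, _, rfl⟩ := hh
    exact hplane v
  · intro A hA B hB cA cB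
    obtain ⟨A', hA', rfl⟩ := Finset.subset_image_iff.mp hA
    obtain ⟨B', hB', rfl⟩ := Finset.subset_image_iff.mp hB
    rw [Finset.card_image_of_injective _ hpt] at cA
    rw [Finset.card_image_of_injective _ hpl] at cB
    obtain ⟨u, hu, v, hv, huv⟩ := hfree A' hA' B' hB' cA cB
    refine ⟨pt u, Finset.mem_image_of_mem _ hu, pl v, Finset.mem_image_of_mem _ hv, ?_⟩
    rwa [hS] at huv

theorem result : ∃ c : ℝ, 0 < c ∧ ∀ t m n : ℕ, 3 ≤ t → 1 ≤ m → 1 ≤ n →
    c * ((max m n : ℝ) ^ ((4 : ℝ) / 5) * (min m n : ℝ) ^ ((3 : ℝ) / 5) + m + n) ≤ I t m n := by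
  classical
  refine ⟨1 / 1000, by norm_num, ?_⟩
  intro t m n ht hm hn
  rcases le_total n m with hmn | hmn
  · obtain ⟨U, V, h1, h2, h3, h4⟩ := big m n hn hmn
    have := transfer t U V R (fun u => ((u.1 : ℝ), (u.2.1 : ℝ), (u.2.2 : ℝ)))
      (fun v => {p : ℝ × ℝ × ℝ | 1 * p.1 + (v.1 : ℝ) * p.2.1 + (v.2.1 : ℝ) * p.2.2 = (v.2.2 : ℝ)})
      (by
        intro u u' h
        simp only [Prod.mk.injEq, Nat.cast_inj] at h
        exact Prod.ext h.1 (Prod.ext h.2.1 h.2.2))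
      (by
        intro v v' h
        have e0 : ((v.2.2 : ℝ), (0 : ℝ), (0 : ℝ)) ∈ {p : ℝ × ℝ × ℝ |
            1 * p.1 + (v.1 : ℝ) * p.2.1 + (v.2.1 : ℝ) * p.2.2 = (v.2.2 : ℝ)} := by simp
        have e1 : ((v.2.2 : ℝ) - v.1, (1 : ℝ), (0 : ℝ)) ∈ {p : ℝ × ℝ × ℝ |
            1 * p.1 + (v.1 : ℝ) * p.2.1 + (v.2.1 : ℝ) * p.2.2 = (v.2.2 : ℝ)} := by simp
        have e2 : ((v.2.2 : ℝ) - v.2.1, (0 : ℝ), (1 : ℝ)) ∈ {p : ℝ × ℝ × ℝ |
            1 * p.1 + (v.1 : ℝ) * p.2.1 + (v.2.1 : ℝ) * p.2.2 = (v.2.2 : ℝ)} := by simp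
        simp only at h
        rw [h] at e0 e1 e2
        simp only [Set.mem_ofPred_eq, one_mul, mul_zero, add_zero, mul_one] at e0 e1 e2
        have f1 : (v.2.2 : ℝ) = v'.2.2 := e0
        have f2 : (v.1 : ℝ) = v'.1 := by linarith
        have f3 : (v.2.1 : ℝ) = v'.2.1 := by linarith
        exact Prod.ext (by exact_mod_cast f2) (Prod.ext (by exact_mod_cast f3)
          (by exact_mod_cast f1)))
      (by
        intro u v
        simp only [Set.mem_ofPred_eq, R]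
        constructor
        · intro h
          have : ((u.1 + u.2.1 * v.1 + u.2.2 * v.2.1 : ℕ) : ℝ) = (v.2.2 : ℝ) := by rw [h]
          push_cast at this
          linarith
        · intro h
          have : ((u.1 + u.2.1 * v.1 + u.2.2 * v.2.1 : ℕ) : ℝ) = (v.2.2 : ℝ) := by
            push_cast; linarith
          exact_mod_cast this)
      (by intro v; exact ⟨1, _, _, _, by simp, rfl⟩)
      (by
        intro A hA B hB cA cB
        by_contra hcon
        push Not at hcon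
        obtain ⟨u, hu, u', hu', huu⟩ := Finset.one_lt_card.mp (by omega : 1 < A.card)
        obtain ⟨v, v', v'', hv, hv', hv'', h12, h13, h23⟩ :=
          Finset.two_lt_card_iff.mp (by omega : 2 < B.card)
        exact h3 u (hA hu) u' (hA hu') v (hB hv) v' (hB hv') v'' (hB hv'') huu h12 h13 h23
          ⟨hcon u hu v hv, hcon u' hu' v hv, hcon u hu v' hv', hcon u' hu' v' hv',
            hcon u hu v'' hv'', hcon u' hu' v'' hv''⟩)
    rw [h1, h2] at this
    have hcast : (((U ×ˢ V).filter (fun p => R p.1 p.2)).card : ℝ) ≤ (I t m n : ℝ) := by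
      exact_mod_cast this
    rw [max_eq_left (by exact_mod_cast hmn : (n : ℝ) ≤ m),
      min_eq_right (by exact_mod_cast hmn : (n : ℝ) ≤ m)]
    exact le_trans h4 hcast
  · obtain ⟨U, V, h1, h2, h3, h4⟩ := big n m hm hmn
    have hswap : ((U ×ˢ V).filter (fun p => R p.1 p.2)).card =
        ((V ×ˢ U).filter (fun p => R p.2 p.1)).card := by
      apply Finset.card_bij (fun p _ => (p.2, p.1))
      · intro p hp
        rw [Finset.mem_filter, Finset.mem_product] at hp ⊢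
        exact ⟨⟨hp.1.2, hp.1.1⟩, hp.2⟩
      · rintro ⟨a, b⟩ _ ⟨c, d⟩ _ h
        simp only [Prod.mk.injEq] at h ⊢
        exact ⟨h.2, h.1⟩
      · rintro ⟨a, b⟩ hp
        rw [Finset.mem_filter, Finset.mem_product] at hp
        exact ⟨(b, a), by rw [Finset.mem_filter, Finset.mem_product]; exact ⟨⟨hp.1.2, hp.1.1⟩, hp.2⟩,
          rfl⟩
    rw [hswap] at h4
    have := transfer t V U (fun v u => R u v) (fun v => ((v.1 : ℝ), (v.2.1 : ℝ), (v.2.2 : ℝ)))
      (fun u => {p : ℝ × ℝ × ℝ | (u.2.1 : ℝ) * p.1 + (u.2.2 : ℝ) * p.2.1 + (-1) * p.2.2 =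
        -(u.1 : ℝ)})
      (by
        intro u u' h
        simp only [Prod.mk.injEq, Nat.cast_inj] at h
        exact Prod.ext h.1 (Prod.ext h.2.1 h.2.2))
      (by
        intro v v' h
        have e0 : ((0 : ℝ), (0 : ℝ), (v.1 : ℝ)) ∈ {p : ℝ × ℝ × ℝ |
            (v.2.1 : ℝ) * p.1 + (v.2.2 : ℝ) * p.2.1 + (-1) * p.2.2 = -(v.1 : ℝ)} := by simp
        have e1 : ((1 : ℝ), (0 : ℝ), (v.1 : ℝ) + v.2.1) ∈ {p : ℝ × ℝ × ℝ |
            (v.2.1 : ℝ) * p.1 + (v.2.2 : ℝ) * p.2.1 + (-1) * p.2.2 = -(v.1 : ℝ)} := by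
          simp only [Set.mem_ofPred_eq]; ring
        have e2 : ((0 : ℝ), (1 : ℝ), (v.1 : ℝ) + v.2.2) ∈ {p : ℝ × ℝ × ℝ |
            (v.2.1 : ℝ) * p.1 + (v.2.2 : ℝ) * p.2.1 + (-1) * p.2.2 = -(v.1 : ℝ)} := by
          simp only [Set.mem_ofPred_eq]; ring
        simp only at h
        rw [h] at e0 e1 e2
        simp only [Set.mem_ofPred_eq] at e0 e1 e2
        have f1 : (v.1 : ℝ) = v'.1 := by linarith
        have f2 : (v.2.1 : ℝ) = v'.2.1 := by linarith
        have f3 : (v.2.2 : ℝ) = v'.2.2 := by linarith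
        exact Prod.ext (by exact_mod_cast f1) (Prod.ext (by exact_mod_cast f2)
          (by exact_mod_cast f3)))
      (by
        intro v u
        simp only [Set.mem_ofPred_eq, R]
        constructor
        · intro h
          have : ((u.1 + u.2.1 * v.1 + u.2.2 * v.2.1 : ℕ) : ℝ) = (v.2.2 : ℝ) := by rw [h]
          push_cast at this
          linarith
        · intro h
          have : ((u.1 + u.2.1 * v.1 + u.2.2 * v.2.1 : ℕ) : ℝ) = (v.2.2 : ℝ) := by
            push_cast; linarith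
          exact_mod_cast this)
      (by intro v; exact ⟨_, _, -1, _, by simp, rfl⟩)
      (by
        intro A hA B hB cA cB
        by_contra hcon
        push Not at hcon
        obtain ⟨u, hu, u', hu', huu⟩ := Finset.one_lt_card.mp (by omega : 1 < B.card)
        obtain ⟨v, v', v'', hv, hv', hv'', h12, h13, h23⟩ :=
          Finset.two_lt_card_iff.mp (by omega : 2 < A.card)
        exact h3 u (hB hu) u' (hB hu') v (hA hv) v' (hA hv') v'' (hA hv'') huu h12 h13 h23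
          ⟨hcon v hv u hu, hcon v hv u' hu', hcon v' hv' u hu, hcon v' hv' u' hu',
            hcon v'' hv'' u hu, hcon v'' hv'' u' hu'⟩)
    rw [h1, h2] at this
    have hcast : (((V ×ˢ U).filter (fun p => R p.2 p.1)).card : ℝ) ≤ (I t m n : ℝ) := by
      exact_mod_cast this
    rw [max_eq_right (by exact_mod_cast hmn : (m : ℝ) ≤ n),
      min_eq_left (by exact_mod_cast hmn : (m : ℝ) ≤ n)]
    refine le_trans ?_ hcast
    refine le_trans ?_ h4
    linarith

end Pool.Agent.Results.MP_06b5a3_co.Unbalanced
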